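import Pool.Agent.Work.MP_223b32_tc.Interface
import Mathlib.LinearAlgebra.Lagrange
import Mathlib.FieldTheory.Finite.Basic

/-! # Block MOORE (helper83)

Proof by Lagrange interpolation instead of determinants. -/

set_option autoImplicit false

namespace Pool.Agent.Work.TC

open Finset Polynomial Pool.Agent.Work.MP_223b32_ag Pool.Agent.Work.MP_223b32_ag_56

namespace MOORE

variable {F K : Type} [Field F] [Field K] [Algebra F K]

/-- the lower part -/
noncomputable def low (m : ℕ) (c : Fin m → F) : F[X] := ∑ i : Fin m, C (c i) * X ^ (i : ℕ)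

theorem coeff_low (m : ℕ) (c : Fin m → F) (i : Fin m) : (low m c).coeff (i : ℕ) = c i := by
  classical
  unfold low
  rw [finsetSum_coeff, Finset.sum_eq_single i]
  · rw [coeff_C_mul, coeff_X_pow, if_pos rfl, mul_one]
  · intro b _ hb
    rw [coeff_C_mul, coeff_X_pow, if_neg, mul_zero]
    intro h
    exact hb (Fin.ext h.symm)
  · intro h
    exact absurd (Finset.mem_univ i) h

theorem aeval_pow [Fintype F] (a : K) (f : F[X]) (j : ℕ) :
    (aeval a f) ^ (Fintype.card F ^ j) = aeval (a ^ (Fintype.card F ^ j)) f := by
  induction j with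
  | zero => simp
  | succ j ih =>
    rw [pow_succ, pow_mul, ih, pow_mul, ← map_pow, ← FiniteField.expand_card, expand_aeval]

end MOORE

theorem stmt_MOORE : Stmt_MOORE := by
  classical
  intro F K _ _ _ _ a m hinj
  set q := Fintype.card F with hq
  have hq2 : 1 < q := Fintype.one_lt_card
  let node : ℕ → K := fun j => a ^ (q ^ j)
  let s : Finset ℕ := range m
  have hs : #s = m := card_range m
  have hvs : Set.InjOn node s := by
    intro i hi j hj hij
    have hi' : i < m := Finset.mem_range.mp (by simpa [s] using hi)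
    have hj' : j < m := Finset.mem_range.mp (by simpa [s] using hj)
    rcases lt_trichotomy i j with h | h | h
    · exact absurd hij (hinj i j h hj')
    · exact h
    · exact absurd hij.symm (hinj j i h hi')
  -- the interpolation coefficients
  let y : K := a ^ (q ^ m)
  let ell : ℕ → K := fun j => (Lagrange.basis s node j).eval y
  have hint : ∀ g : K[X], g.degree < m → g.eval y = ∑ j ∈ s, g.eval (node j) * ell j := by
    intro g hg
    have h := Lagrange.eq_interpolate (f := g) hvs (by rw [hs]; exact hg)
    have h2 := congrArg (eval y) h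
    rw [Lagrange.interpolate_apply, eval_finsetSum] at h2
    rw [h2]
    refine Finset.sum_congr rfl fun j _ => ?_
    rw [eval_mul, eval_C]
  let w : (Fin m → F) → K := fun c => aeval a (MOORE.low m c)
  let R : K[X] := X ^ (q ^ m) - ∑ j ∈ s, C (ell j) * X ^ (q ^ j)
  have hdeg : ∀ c : Fin m → F, ((MOORE.low m c).map (algebraMap F K)).degree < m := by
    intro c
    exact lt_of_le_of_lt (degree_map_le) (degree_sum_fin_lt c)
  have hw : ∀ (c : Fin m → F) (j : ℕ),
      (w c) ^ (q ^ j) = ((MOORE.low m c).map (algebraMap F K)).eval (a ^ (q ^ j)) := by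
    intro c j
    rw [eval_map, ← aeval_def]
    exact MOORE.aeval_pow a _ j
  have hRw : ∀ c, R.eval (w c) = 0 := by
    intro c
    simp only [R, eval_sub, eval_pow, eval_X, eval_finsetSum, eval_mul, eval_C]
    rw [hw c m, hint _ (hdeg c), sub_eq_zero]
    refine Finset.sum_congr rfl fun j _ => ?_
    rw [hw c j, mul_comm]
  have hwinj : Function.Injective w := by
    intro c c' hcc
    have h1 : (MOORE.low m c).map (algebraMap F K) = (MOORE.low m c').map (algebraMap F K) := by
      refine eq_of_degrees_lt_of_eval_index_eq s hvs (by rw [hs]; exact hdeg c)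
        (by rw [hs]; exact hdeg c') ?_
      intro j _
      rw [← hw c j, ← hw c' j, hcc]
    have h2 := Polynomial.map_injective _ (algebraMap F K).injective h1
    funext i
    rw [← MOORE.coeff_low m c i, ← MOORE.coeff_low m c' i, h2]
  -- R is the product
  have hprod : R = ∏ c : Fin m → F, (X - C (w c)) := by
    have hcard : #(Finset.univ : Finset (Fin m → F)) = q ^ m := by
      rw [Finset.card_univ, Fintype.card_fun, Fintype.card_fin]
    have hmon : (∏ c : Fin m → F, (X - C (w c))).Monic :=
      monic_prod_of_monic _ _ fun c _ => monic_X_sub_C _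
    have hdegP : (∏ c : Fin m → F, (X - C (w c))).degree = ((q ^ m : ℕ) : WithBot ℕ) := by
      rw [degree_prod]
      simp only [degree_X_sub_C]
      rw [Finset.sum_const, hcard]
      simp
    have hsum : (∑ j ∈ s, C (ell j) * X ^ (q ^ j) : K[X]).degree < ((q ^ m : ℕ) : WithBot ℕ) := by
      refine lt_of_le_of_lt (degree_sum_le _ _) ?_
      rw [Finset.sup_lt_iff (by exact WithBot.bot_lt_coe _)]
      intro j hj
      refine lt_of_le_of_lt (degree_C_mul_X_pow_le _ _) ?_
      exact_mod_cast Nat.pow_lt_pow_right hq2 (Finset.mem_range.mp hj)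
    refine eq_of_degree_sub_lt_of_eval_index_eq (Finset.univ : Finset (Fin m → F))
      (v := w) (hwinj.injOn) ?_ ?_
    · rw [hcard]
      have h3 : R - ∏ c : Fin m → F, (X - C (w c)) =
          (X ^ (q ^ m) - ∏ c : Fin m → F, (X - C (w c))) - ∑ j ∈ s, C (ell j) * X ^ (q ^ j) := by
        simp only [R]; ring
      rw [h3]
      refine lt_of_le_of_lt (degree_sub_le _ _) (max_lt ?_ hsum)
      have h4 := degree_sub_lt_left (p := (X ^ (q ^ m) : K[X])) (q := ∏ c : Fin m → F, (X - C (w c)))
        (by rw [degree_X_pow, hdegP]) (pow_ne_zero _ X_ne_zero)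
        (by rw [(monic_X_pow _).leadingCoeff, hmon.leadingCoeff])
      rwa [degree_X_pow] at h4
    · intro c _
      rw [hRw c, eval_prod, Finset.prod_eq_zero (Finset.mem_univ c)]
      simp
  -- value at a ^ m
  have hval1 : R.eval (a ^ m) = ∏ j ∈ s, (y - node j) := by
    have hmon : (Lagrange.nodal s node).Monic := Lagrange.nodal_monic
    have hd : (X ^ m - Lagrange.nodal s node : K[X]).degree < m := by
      have h4 := degree_sub_lt_left (p := (X ^ m : K[X])) (q := Lagrange.nodal s node)
        (by rw [degree_X_pow, Lagrange.degree_nodal, hs]) (pow_ne_zero _ X_ne_zero)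
        (by rw [(monic_X_pow _).leadingCoeff, hmon.leadingCoeff])
      rwa [degree_X_pow] at h4
    have h5 := hint _ hd
    rw [eval_sub, eval_pow, eval_X] at h5
    have h6 : ∑ j ∈ s, eval (node j) (X ^ m - Lagrange.nodal s node) * ell j =
        ∑ j ∈ s, ell j * (a ^ m) ^ (q ^ j) := by
      refine Finset.sum_congr rfl fun j hj => ?_
      rw [eval_sub, Lagrange.eval_nodal_at_node hj, sub_zero, eval_pow, eval_X, mul_comm]
      simp only [node]
      rw [← pow_mul, ← pow_mul, mul_comm m]
    rw [h6] at h5
    simp only [R, eval_sub, eval_pow, eval_X, eval_finsetSum, eval_mul, eval_C]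
    rw [← Lagrange.eval_nodal, ← h5]
    have h7 : (a ^ m) ^ (q ^ m) = y ^ m := by
      simp only [y]
      rw [← pow_mul, ← pow_mul, mul_comm m]
    rw [h7]
    ring
  have hval2 : ∏ c : Fin m → F, val a m c = R.eval (a ^ m) := by
    rw [hprod, eval_prod]
    refine Fintype.prod_equiv (Equiv.neg (Fin m → F)) _ _ ?_
    intro c
    rw [eval_sub, eval_X, eval_C]
    simp only [val, w, MOORE.low, Equiv.neg_apply, Pi.neg_apply, map_sum, map_mul, map_neg,
      aeval_C, map_pow, aeval_X, neg_mul, Finset.sum_neg_distrib, sub_neg_eq_add]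
  rw [hval2, hval1]

end Pool.Agent.Work.TC
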